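import Pool.Agent.Helper49.BallFinal

/-!
# Graphs of sphere dimension at most `d` are quasi-isometric to ball intersection graphs in `ℝ^d`

Every finite graph of sphere dimension at most `d` admits a `(37, 54)`-quasi-isometry to the
intersection graph of a finite family of balls in `ℝ^d` (for all `d ≥ 2`, with the same constants).
The family of spheres may have repeated members (two vertices with the same sphere), the balls are
pairwise distinct; so the theorem holds for both readings of the word family.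

The construction.  Add a root sphere enclosing everything and layer the vertices by their distance
(depth) from the root.  A component of the vertices of depth `> k` which lies inside a sphere `x` of
depth `k - 1` is a node.  The vertices of the node not lying inside a deeper wall, together with the
vertices close to `x`, are turned into balls (spheres around the node are replaced by the complement
of an open ball); an inversion makes all of them honest balls.  Near a separated set of hubs the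
configuration is modified so that hubs are only touched from outside; then the configurations of the
child nodes are attached at a tiny scale at free boundary points of hubs.
-/

set_option autoImplicit false

namespace Pool.Agent.Results.MP_7d0d24_co.SphereBallQI

universe u

/-- `G` is the intersection graph of the family `A` of sets: the vertices of `G` are the indices of the
family, and two distinct vertices are adjacent exactly when the corresponding sets meet. -/
def IsIntersectionGraphOf {V X : Type*} (G : SimpleGraph V) (A : V → Set X) : Prop :=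
  ∀ u v : V, u ≠ v → (G.Adj u v ↔ (A u ∩ A v).Nonempty)

/-- `G` is an intersection graph of a family of spheres in `ℝ^d`. The family is indexed by the vertices
and may have repeated members: two vertices may have the same sphere. -/
def IsSphereGraph (d : ℕ) {V : Type*} (G : SimpleGraph V) : Prop :=
  ∃ A : V → Set (EuclideanSpace ℝ (Fin d)),
    (∀ v, ∃ (c : EuclideanSpace ℝ (Fin d)) (r : ℝ), 0 < r ∧ A v = Metric.sphere c r) ∧
      IsIntersectionGraphOf G A

/-- `G` is an intersection graph of a finite family of pairwise distinct balls in `ℝ^d`. -/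
def IsBallGraph (d : ℕ) {V : Type*} (G : SimpleGraph V) : Prop :=
  Finite V ∧ ∃ A : V → Set (EuclideanSpace ℝ (Fin d)), Function.Injective A ∧
    (∀ v, ∃ (c : EuclideanSpace ℝ (Fin d)) (r : ℝ), 0 < r ∧ A v = Metric.closedBall c r) ∧
      IsIntersectionGraphOf G A

/-- The sphere dimension of `G`: the least `d ≥ 2` such that `G` is an intersection graph of spheres
in `ℝ^d` (and `⊤` if there is no such `d`). -/
noncomputable def sphereDim {V : Type*} (G : SimpleGraph V) : ℕ∞ :=
  sInf {x : ℕ∞ | ∃ d : ℕ, 2 ≤ d ∧ IsSphereGraph d G ∧ x = d}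

/-- The shortest-path distance, as an extended real number; `⊤` between distinct components. -/
noncomputable def pathDist {V : Type*} (G : SimpleGraph V) (x y : V) : EReal :=
  (((G.edist x y : ℕ∞) : ENNReal) : EReal)

/-- `f` is a `(P, S)`-quasi-isometry from `G` to `H`. -/
structure IsQuasiIsometry (P S : ℝ) {V W : Type*} (G : SimpleGraph V) (H : SimpleGraph W)
    (f : V → W) : Prop where
  lower : ∀ x y : V, ((P⁻¹ : ℝ) : EReal) * pathDist G x y - (S : EReal) ≤ pathDist H (f x) (f y)
  upper : ∀ x y : V, pathDist H (f x) (f y) ≤ (P : EReal) * pathDist G x y + (S : EReal)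
  coarse : ∀ z : W, ∃ x : V, pathDist H z (f x) ≤ (S : EReal)

section geometry

variable {E : Type*} [NormedAddCommGroup E] [InnerProductSpace ℝ E]

lemma exists_unit [Nontrivial E] (c₁ c₂ : E) : ∃ n : E, ‖n‖ = 1 ∧ c₂ - c₁ = dist c₁ c₂ • n := by
  by_cases h : c₂ = c₁
  · obtain ⟨n, hn⟩ := exists_norm_eq E (zero_le_one (α := ℝ))
    exact ⟨n, hn, by subst h; simp⟩
  · have h0 : 0 < ‖c₂ - c₁‖ := norm_pos_iff.2 (sub_ne_zero.2 h)
    refine ⟨(‖c₂ - c₁‖)⁻¹ • (c₂ - c₁), ?_, ?_⟩
    · rw [norm_smul, norm_inv, norm_norm, inv_mul_cancel₀ h0.ne']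
    · rw [dist_comm, dist_eq_norm, smul_smul, mul_inv_cancel₀ h0.ne', one_smul]

lemma sphere_inter_iff [Nontrivial E] (hrank : 1 < Module.rank ℝ E) (c₁ c₂ : E) (r₁ r₂ : ℝ)
    (h₁ : 0 < r₁) :
    (Metric.sphere c₁ r₁ ∩ Metric.sphere c₂ r₂).Nonempty ↔
      r₁ ≤ dist c₁ c₂ + r₂ ∧ r₂ ≤ dist c₁ c₂ + r₁ ∧ dist c₁ c₂ ≤ r₁ + r₂ := by
  constructor
  · rintro ⟨p, hp1, hp2⟩
    rw [Metric.mem_sphere] at hp1 hp2
    have t1 := dist_triangle p c₂ c₁
    have t2 := dist_triangle p c₁ c₂
    have t3 := dist_triangle c₁ p c₂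
    rw [dist_comm c₂ c₁] at t1
    rw [dist_comm c₁ p] at t3
    refine ⟨by linarith, by linarith, by linarith⟩
  · rintro ⟨h1, h2, h3⟩
    obtain ⟨n, hn, hn'⟩ := exists_unit c₁ c₂
    have hconn := isPreconnected_sphere hrank c₁ r₁
    have hd : 0 ≤ dist c₁ c₂ := dist_nonneg
    have ha : c₁ + r₁ • n ∈ Metric.sphere c₁ r₁ := by
      rw [Metric.mem_sphere, dist_self_add_left, norm_smul, hn, mul_one,
        Real.norm_of_nonneg h₁.le]
    have hb : c₁ - r₁ • n ∈ Metric.sphere c₁ r₁ := by
      rw [Metric.mem_sphere, dist_self_sub_left, norm_smul, hn, mul_one,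
        Real.norm_of_nonneg h₁.le]
    have hfa : dist (c₁ + r₁ • n) c₂ = |r₁ - dist c₁ c₂| := by
      rw [dist_eq_norm, show c₁ + r₁ • n - c₂ = r₁ • n - (c₂ - c₁) by abel, hn', ← sub_smul,
        norm_smul, hn, mul_one, Real.norm_eq_abs]
    have hfb : dist (c₁ - r₁ • n) c₂ = dist c₁ c₂ + r₁ := by
      rw [dist_eq_norm, show c₁ - r₁ • n - c₂ = -((c₂ - c₁) + r₁ • n) by abel, norm_neg, hn',
        ← add_smul, norm_smul, hn, mul_one, Real.norm_of_nonneg (by linarith)]
    have hivt := hconn.intermediate_value ha hb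
      (f := fun p => dist p c₂) (continuous_id.dist continuous_const).continuousOn
    obtain ⟨p, hp, hp'⟩ := hivt (show r₂ ∈ Set.Icc _ _ from by
      simp only [hfa, hfb]
      refine ⟨?_, h2⟩
      rw [abs_le]
      constructor <;> linarith)
    exact ⟨p, hp, hp'⟩

lemma ball_inter_iff (c₁ c₂ : E) (r₁ r₂ : ℝ) (h₁ : 0 < r₁) (h₂ : 0 < r₂) :
    (Metric.closedBall c₁ r₁ ∩ Metric.closedBall c₂ r₂).Nonempty ↔ dist c₁ c₂ ≤ r₁ + r₂ := by
  constructor
  · rintro ⟨p, hp1, hp2⟩
    rw [Metric.mem_closedBall] at hp1 hp2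
    have t3 := dist_triangle c₁ p c₂
    rw [dist_comm c₁ p] at t3
    linarith
  · intro h
    obtain ⟨q, hq1, hq2⟩ := BallQI.exists_common_point c₁ c₂ r₁ r₂ h₁.le h₂.le h
    exact ⟨q, hq1, hq2⟩

lemma radius_eq_of_closedBall_eq [Nontrivial E] (c₁ c₂ : E) (r₁ r₂ : ℝ) (h₁ : 0 < r₁)
    (h₂ : 0 < r₂) (h : Metric.closedBall c₁ r₁ = Metric.closedBall c₂ r₂) : r₁ = r₂ := by
  have key : ∀ (a b : E) (s t : ℝ), 0 < s → 0 < t → Metric.closedBall a s = Metric.closedBall b t →
      t ≤ s := by
    intro a b s t _ ht hst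
    obtain ⟨q, hq1, hq2⟩ := BallQI.exists_far_point a b t ht.le
    have : q ∈ Metric.closedBall a s := by
      rw [hst]
      exact hq2
    rw [Metric.mem_closedBall, hq1] at this
    have hd : 0 ≤ dist a b := dist_nonneg
    linarith
  exact le_antisymm (key c₂ c₁ r₂ r₁ h₂ h₁ h.symm) (key c₁ c₂ r₁ r₂ h₁ h₂ h)

/-- `ℝ^k` embeds isometrically in `ℝ^d` -/
lemma exists_isometry {k d : ℕ} (h : k ≤ d) :
    ∃ ι : EuclideanSpace ℝ (Fin k) → EuclideanSpace ℝ (Fin d), Isometry ι := by
  classical
  obtain ⟨v, hv⟩ : ∃ v : Fin k → EuclideanSpace ℝ (Fin d), Orthonormal ℝ v :=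
    ⟨fun i => EuclideanSpace.basisFun (Fin d) ℝ (Fin.castLE h i),
      (EuclideanSpace.basisFun (Fin d) ℝ).orthonormal.comp _ (Fin.castLE_injective h)⟩
  let b := (EuclideanSpace.basisFun (Fin k) ℝ).toBasis
  let L : EuclideanSpace ℝ (Fin k) →ₗ[ℝ] EuclideanSpace ℝ (Fin d) := b.constr ℝ v
  have hL : Orthonormal ℝ (L ∘ b) := by
    have : (L ∘ b) = v := by
      ext1 i
      exact b.constr_basis ℝ v i
    rw [this]
    exact hv
  have hb : Orthonormal ℝ b := by
    show Orthonormal ℝ ((EuclideanSpace.basisFun (Fin k) ℝ).toBasis)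
    rw [OrthonormalBasis.coe_toBasis]
    exact (EuclideanSpace.basisFun (Fin k) ℝ).orthonormal
  exact ⟨L, (L.isometryOfOrthonormal hb hL).isometry⟩

end geometry

/-- translation of sphere intersection graphs into inequalities -/
lemma IsSphereGraph.exists_sgraph {k : ℕ} (hk : 2 ≤ k) {V : Type u} {G : SimpleGraph V}
    (h : IsSphereGraph k G) :
    ∃ (c : V → EuclideanSpace ℝ (Fin k)) (r : V → ℝ), (∀ v, 0 < r v) ∧ G = BallQI.sgraph c r := by
  have hne : Nonempty (Fin k) := ⟨⟨0, by omega⟩⟩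
  have hrank : 1 < Module.rank ℝ (EuclideanSpace ℝ (Fin k)) := by
    rw [← Module.finrank_eq_rank, finrank_euclideanSpace_fin]
    exact_mod_cast hk
  obtain ⟨A, hA, hadj⟩ := h
  choose c r hr hc using hA
  refine ⟨c, r, hr, ?_⟩
  ext u v
  by_cases huv : u = v
  · subst huv
    exact ⟨fun h => absurd rfl h.ne, fun h => absurd rfl h.1⟩
  · rw [hadj u v huv, hc u, hc v, sphere_inter_iff hrank _ _ _ _ (hr u)]
    exact ⟨fun h => ⟨huv, h⟩, fun h => h.2⟩

lemma exists_sphereGraph_of_sphereDim_le {V : Type u} {G : SimpleGraph V} {d : ℕ}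
    (h : sphereDim G ≤ d) : ∃ k, 2 ≤ k ∧ k ≤ d ∧ IsSphereGraph k G := by
  have hne : {x : ℕ∞ | ∃ d : ℕ, 2 ≤ d ∧ IsSphereGraph d G ∧ x = d}.Nonempty := by
    by_contra hcon
    rw [Set.not_nonempty_iff_eq_empty] at hcon
    unfold sphereDim at h
    rw [hcon, sInf_empty, top_le_iff] at h
    exact ENat.natCast_ne_top d h
  obtain ⟨k, hk1, hk2, hk3⟩ := csInf_mem hne
  refine ⟨k, hk1, ?_, hk2⟩
  have : (k : ℕ∞) ≤ d := by
    rw [← hk3]
    exact h
  exact_mod_cast this

lemma coe_nat_aux (n : ℕ) : (((n : ℕ∞) : ENNReal) : EReal) = ((n : ℝ) : EReal) := by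
  rw [ENat.toENNReal_coe, ← EReal.coe_ennreal_toReal (ENNReal.natCast_ne_top n),
    ENNReal.toReal_natCast]

/-- `pathDist` of reachable vertices -/
lemma pathDist_le {V : Type u} {G : SimpleGraph V} {x y : V} {n : ℕ} (h : BallQI.Within G n x y) :
    pathDist G x y ≤ ((n : ℝ) : EReal) := by
  obtain ⟨p, hp⟩ := h
  have h1 : G.edist x y ≤ (n : ℕ∞) := (SimpleGraph.edist_le p).trans (by exact_mod_cast hp)
  have h2 : ((G.edist x y : ℕ∞) : ENNReal) ≤ ((n : ℕ∞) : ENNReal) := by
    exact_mod_cast h1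
  unfold pathDist
  calc (((G.edist x y : ℕ∞) : ENNReal) : EReal) ≤ (((n : ℕ∞) : ENNReal) : EReal) := by
        exact_mod_cast h2
    _ = ((n : ℝ) : EReal) := coe_nat_aux n

lemma exists_within_of_ne_top {V : Type u} {G : SimpleGraph V} {x y : V}
    (h : pathDist G x y ≠ ⊤) :
    ∃ n : ℕ, BallQI.Within G n x y ∧ pathDist G x y = ((n : ℝ) : EReal) := by
  have h1 : G.edist x y ≠ ⊤ := by
    intro h2
    apply h
    unfold pathDist
    rw [h2]
    simp
  have hr : G.Reachable x y := by
    rw [← SimpleGraph.edist_ne_top_iff_reachable]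
    exact h1
  obtain ⟨p, hp⟩ := hr.exists_walk_length_eq_edist
  refine ⟨p.length, ⟨p, le_rfl⟩, ?_⟩
  unfold pathDist
  rw [← hp]
  exact coe_nat_aux _

theorem result : ∀ d : ℕ, 2 ≤ d → ∀ (V : Type u) [Finite V] (G : SimpleGraph V), sphereDim G ≤ d →
    ∃ (W : Type u) (H : SimpleGraph W) (f : V → W),
      IsBallGraph d H ∧ IsQuasiIsometry 37 54 G H f := by
  intro d _ V _ G hG
  obtain ⟨k, hk2, hkd, hsph⟩ := exists_sphereGraph_of_sphereDim_le hG
  obtain ⟨c, r, hr, rfl⟩ := hsph.exists_sgraph hk2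
  have hne : Nonempty (Fin k) := ⟨⟨0, by omega⟩⟩
  have hrank : 1 < Module.rank ℝ (EuclideanSpace ℝ (Fin k)) := by
    rw [← Module.finrank_eq_rank, finrank_euclideanSpace_fin]
    exact_mod_cast hk2
  have hinf : (Metric.sphere (0 : EuclideanSpace ℝ (Fin k)) 1).Infinite := by
    obtain ⟨n, hn⟩ := exists_norm_eq (EuclideanSpace ℝ (Fin k)) (zero_le_one (α := ℝ))
    refine (isPreconnected_sphere hrank 0 1).infinite_of_nontrivial ⟨n, by simpa using hn, -n,
      by simpa using hn, ?_⟩
    intro h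
    have h0 : (2 : ℝ) • n = 0 := by
      rw [two_smul]
      nth_rewrite 1 [h]
      exact neg_add_cancel n
    rcases smul_eq_zero.1 h0 with h1 | h1
    · norm_num at h1
    · rw [h1, norm_zero] at hn
      exact zero_ne_one hn
  obtain ⟨W, hWfin, c', r', f, g, hr', p1, p2, p3, p4⟩ := BallQI.general_result hinf c r hr
  obtain ⟨r'', hr'', hinj, hgr⟩ := BallQI.perturb c' r' hr'
  obtain ⟨ι, hι⟩ := exists_isometry hkd
  set G := BallQI.sgraph c r with hGdef
  set H := BallQI.bgraph c' r' with hHdef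
  have hned : Nonempty (Fin d) := ⟨⟨0, by omega⟩⟩
  refine ⟨W, H, f, ?_, ?_, ?_, ?_⟩
  · -- the family of balls
    have hinj' : Function.Injective (fun w => Metric.closedBall (ι (c' w)) (r'' w)) := by
      intro w w' hww
      exact hinj (radius_eq_of_closedBall_eq _ _ _ _ (hr'' w) (hr'' w') hww)
    refine ⟨hWfin, fun w => Metric.closedBall (ι (c' w)) (r'' w), hinj',
      fun w => ⟨ι (c' w), r'' w, hr'' w, rfl⟩, ?_⟩
    intro w w' hne
    rw [ball_inter_iff _ _ _ _ (hr'' w) (hr'' w'), hι.dist_eq, ← hgr]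
    exact ⟨fun h => h.2, fun h => ⟨hne, h⟩⟩
  · intro x y
    by_cases htop : pathDist H (f x) (f y) = ⊤
    · rw [htop]
      exact le_top
    · obtain ⟨n, hn, hn'⟩ := exists_within_of_ne_top htop
      have h1 : BallQI.Within G (8 + 35 * n + 8) x y :=
        ((p3 x).symm.trans (BallQI.Within.map_lip g p2 hn)).trans (p3 y)
      have h2 := pathDist_le h1
      have htopG : pathDist G x y ≠ ⊤ := ne_top_of_le_ne_top (EReal.coe_ne_top _) h2
      obtain ⟨m, hm, hm'⟩ := exists_within_of_ne_top htopG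
      rw [hm'] at h2 ⊢
      rw [hn']
      have h3 : (m : ℝ) ≤ ((8 + 35 * n + 8 : ℕ) : ℝ) := by exact_mod_cast h2
      have h4 : ((37 : ℝ)⁻¹) * m - 54 ≤ n := by
        push_cast at h3
        have hn0 : (0 : ℝ) ≤ n := Nat.cast_nonneg n
        linarith
      exact_mod_cast h4
  · intro x y
    by_cases htop : pathDist G x y = ⊤
    · rw [htop, EReal.coe_mul_top_of_pos (by norm_num), EReal.top_add_coe]
      exact le_top
    · obtain ⟨n, hn, hn'⟩ := exists_within_of_ne_top htop
      have h1 : BallQI.Within H (37 * n) (f x) (f y) := BallQI.Within.map_lip f p1 hn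
      refine (pathDist_le h1).trans ?_
      rw [hn']
      have h4 : ((37 * n : ℕ) : ℝ) ≤ 37 * (n : ℝ) + 54 := by
        push_cast
        linarith
      exact_mod_cast h4
  · intro z
    obtain ⟨x, hx⟩ := p4 z
    exact ⟨x, by simpa using pathDist_le hx⟩

end Pool.Agent.Results.MP_7d0d24_co.SphereBallQI
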